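import Mathlib

/-!
# Points of the convex hull at distance more than `λ` are `λ`-reconstructible

For a nonempty closed set `X` and `p` in its convex hull, the function `d(a)² - ‖a - p‖²` is
bounded above.  A maximiser `b` of `d(a)² - (1 + ε) ‖a - p‖²` is a centre of a ball containing `p`
whose contact set cannot lie in a closed ball of radius `λ < d(p)`, if `ε` is small.
-/

namespace Pool.Agent.Results.MP_15b8d6_gt.HullReconstructible

open Metric Set Filter
open scoped Topology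

/-- Euclidean space. -/
abbrev E (n : ℕ) := EuclideanSpace ℝ (Fin n)

/-- Distance to `X`. -/
noncomputable def d {n : ℕ} (X : Set (E n)) (a : E n) : ℝ := infDist a X

/-- The nearest points of `X`. -/
def m {n : ℕ} (X : Set (E n)) (a : E n) : Set (E n) := {x | x ∈ X ∧ ‖a - x‖ = d X a}

/-- The medial axis. -/
def medialAxis {n : ℕ} (X : Set (E n)) : Set (E n) := {a | (m X a).Nontrivial}

/-- The `lam`-medial axis. -/
def lamMedialAxis {n : ℕ} (X : Set (E n)) (lam : ℝ) : Set (E n) :=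
  {a | a ∈ medialAxis X ∧ ¬ ∃ c : E n, m X a ⊆ closedBall c lam}

/-- `lam`-reconstructible points. -/
def Reconstructible {n : ℕ} (X : Set (E n)) (lam : ℝ) (p : E n) : Prop :=
  p ∉ X ∧ p ∈ ⋃ a ∈ lamMedialAxis X lam, ball a (d X a)

lemma exists_near {n : ℕ} {X : Set (E n)} (hX : IsClosed X) (hne : X.Nonempty) (a : E n) :
    ∃ x ∈ X, ‖a - x‖ = d X a := by
  obtain ⟨x, hx, h⟩ := hX.exists_infDist_eq_dist hne a
  exact ⟨x, hx, by rw [d, h, dist_eq_norm]⟩

lemma d_le {n : ℕ} {X : Set (E n)} (a x : E n) (hx : x ∈ X) : d X a ≤ ‖a - x‖ := by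
  rw [← dist_eq_norm]
  exact infDist_le_dist_of_mem hx

lemma d_nonneg {n : ℕ} (X : Set (E n)) (a : E n) : 0 ≤ d X a := infDist_nonneg

/-- Upper bound from a convex combination. -/
lemma upper {n : ℕ} {X : Set (E n)} {p : E n} (hp : p ∈ convexHull ℝ X) :
    ∃ M : ℝ, 0 ≤ M ∧ ∀ a, d X a ^ 2 ≤ ‖a - p‖ ^ 2 + M := by
  rw [convexHull_eq] at hp
  obtain ⟨ι, t, w, z, hw0, hw1, hz, hc⟩ := hp
  rw [Finset.centerMass_eq_of_sum_1 _ _ hw1] at hc
  refine ⟨∑ i ∈ t, w i * ‖z i - p‖ ^ 2,
    Finset.sum_nonneg (fun i hi => mul_nonneg (hw0 i hi) (sq_nonneg _)), ?_⟩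
  intro a
  have h1 : ∀ i ∈ t, w i * d X a ^ 2
      ≤ w i * ‖a - p‖ ^ 2 - 2 * inner ℝ (a - p) (w i • (z i - p)) + w i * ‖z i - p‖ ^ 2 := by
    intro i hi
    have h2 : d X a ^ 2 ≤ ‖a - z i‖ ^ 2 :=
      pow_le_pow_left₀ (d_nonneg X a) (d_le a (z i) (hz i hi)) 2
    have h3 : ‖a - z i‖ ^ 2 = ‖a - p‖ ^ 2 - 2 * inner ℝ (a - p) (z i - p) + ‖z i - p‖ ^ 2 := by
      rw [← norm_sub_sq_real]
      congr 2
      abel
    rw [inner_smul_right]
    have := mul_le_mul_of_nonneg_left (h2.trans h3.le) (hw0 i hi)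
    linarith
  have h4 := Finset.sum_le_sum h1
  rw [← Finset.sum_mul, hw1, one_mul, Finset.sum_add_distrib, Finset.sum_sub_distrib,
    ← Finset.sum_mul, hw1, one_mul, ← Finset.mul_sum, ← inner_sum] at h4
  have h5 : ∑ i ∈ t, w i • (z i - p) = 0 := by
    simp_rw [smul_sub, Finset.sum_sub_distrib, ← Finset.sum_smul]
    rw [hw1, hc, one_smul, sub_self]
  rw [h5, inner_zero_right] at h4
  linarith

/-- **Every point of the convex hull of a nonempty closed set whose distance to the set exceeds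
`lam` is `lam`-reconstructible.** -/
theorem result (n : ℕ) (X : Set (E n)) (hX : IsClosed X) (hne : X.Nonempty) (lam : ℝ)
    (hlam : 0 ≤ lam) (p : E n) (hp : p ∈ convexHull ℝ X) (hd : lam < d X p) :
    Reconstructible X lam p := by
  obtain ⟨M, hM0, hM⟩ := upper hp
  set η : ℝ := d X p - lam with hη
  have hη0 : 0 < η := by rw [hη]; linarith
  have hdp : 0 < d X p := lt_of_le_of_lt hlam hd
  set ε : ℝ := η ^ 2 / (2 * (M + 1)) with hε
  have hε0 : 0 < ε := by positivity
  have hεM : ε * M < η ^ 2 := by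
    rw [hε, div_mul_eq_mul_div, div_lt_iff₀ (by positivity)]
    nlinarith [sq_pos_of_pos hη0]
  have hcont : Continuous (d X) := continuous_infDist_pt X
  -- maximiser
  set G : E n → ℝ := fun a => d X a ^ 2 - (1 + ε) * ‖a - p‖ ^ 2 with hG
  have hGc : Continuous G := by
    rw [hG]
    fun_prop
  set R : ℝ := M / ε + 1 with hR
  have hR1 : 1 ≤ R := by
    have : 0 ≤ M / ε := by positivity
    linarith
  obtain ⟨b, hbB, hb⟩ := (isCompact_closedBall p R).exists_isMaxOn
    ⟨p, mem_closedBall_self (by linarith)⟩ hGc.continuousOn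
  have hGp : G p = d X p ^ 2 := by simp [hG]
  have hbp : G p ≤ G b := hb (mem_closedBall_self (by linarith))
  have hmax : ∀ a, G a ≤ G b := by
    intro a
    by_cases ha : a ∈ closedBall p R
    · exact hb ha
    · rw [mem_closedBall, not_le, dist_eq_norm] at ha
      refine le_trans ?_ hbp
      rw [hGp]
      have h1 := hM a
      have h2 : M ≤ ε * ‖a - p‖ ^ 2 := by
        have h3 : R ≤ ‖a - p‖ ^ 2 := by nlinarith
        have h4 : ε * R = M + ε := by
          rw [hR]; field_simp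
        nlinarith [mul_le_mul_of_nonneg_left h3 hε0.le]
      simp only [hG]
      nlinarith [sq_nonneg (d X p)]
  have hGb : d X p ^ 2 ≤ d X b ^ 2 - (1 + ε) * ‖b - p‖ ^ 2 := by
    rw [← hGp]; exact hbp
  have hεb : ε * ‖b - p‖ ^ 2 ≤ M := by
    have := hM b
    nlinarith [sq_nonneg (d X p)]
  -- not in a ball of radius lam
  have hnot : ¬ ∃ c : E n, m X b ⊆ closedBall c lam := by
    rintro ⟨c, hc⟩
    set q : E n := p - ε • (b - p) with hq
    set w : E n := q - c with hw
    have hpq : ‖p - q‖ < η := by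
      have h1 : p - q = ε • (b - p) := by rw [hq]; abel
      rw [h1, norm_smul, Real.norm_of_nonneg hε0.le]
      have h2 : (ε * ‖b - p‖) ^ 2 < η ^ 2 := by
        calc (ε * ‖b - p‖) ^ 2 = ε * (ε * ‖b - p‖ ^ 2) := by ring
          _ ≤ ε * M := mul_le_mul_of_nonneg_left hεb hε0.le
          _ < η ^ 2 := hεM
      exact lt_of_pow_lt_pow_left₀ 2 hη0.le h2
    -- nearest points of perturbed centres
    have hx : ∀ k : ℕ, ∃ x ∈ X, ‖(b + (1 / ((k : ℝ) + 1)) • w) - x‖
        = d X (b + (1 / ((k : ℝ) + 1)) • w) := fun k => exists_near hX hne _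
    choose x hxX hxd using hx
    have hineq : ∀ k : ℕ, -(ε * (1 / ((k : ℝ) + 1)) * ‖w‖ ^ 2 / 2) ≤ inner ℝ w (x k - q) := by
      intro k
      set t : ℝ := 1 / ((k : ℝ) + 1) with ht
      have ht0 : 0 < t := by positivity
      have h1 := hmax (b + t • w)
      simp only [hG] at h1
      rw [← hxd k] at h1
      have h2 : ‖(b + t • w) - x k‖ ^ 2
          = ‖b - x k‖ ^ 2 + 2 * (t * inner ℝ w (b - x k)) + t ^ 2 * ‖w‖ ^ 2 := by
        have : (b + t • w) - x k = (b - x k) + t • w := by abel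
        rw [this, norm_add_sq_real, inner_smul_right, real_inner_comm, norm_smul, mul_pow,
          Real.norm_eq_abs, sq_abs]
      have h3 : ‖(b + t • w) - p‖ ^ 2
          = ‖b - p‖ ^ 2 + 2 * (t * inner ℝ w (b - p)) + t ^ 2 * ‖w‖ ^ 2 := by
        have : (b + t • w) - p = (b - p) + t • w := by abel
        rw [this, norm_add_sq_real, inner_smul_right, real_inner_comm, norm_smul, mul_pow,
          Real.norm_eq_abs, sq_abs]
      rw [h2, h3] at h1
      have h4 : d X b ^ 2 ≤ ‖b - x k‖ ^ 2 :=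
        pow_le_pow_left₀ (d_nonneg X b) (d_le b (x k) (hxX k)) 2
      have h5 : (inner ℝ w (x k - q) : ℝ)
          = -(inner ℝ w (b - x k)) + (1 + ε) * inner ℝ w (b - p) := by
        rw [← inner_smul_right, ← inner_neg_right, ← inner_add_right]
        congr 1
        rw [hq]
        module
      rw [h5]
      have h6 : t * (2 * inner ℝ w (b - x k) - 2 * (1 + ε) * inner ℝ w (b - p)
          - ε * t * ‖w‖ ^ 2) ≤ 0 := by nlinarith
      have h7 : 2 * inner ℝ w (b - x k) - 2 * (1 + ε) * inner ℝ w (b - p)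
          - ε * t * ‖w‖ ^ 2 ≤ 0 := by
        by_contra hcon
        push Not at hcon
        linarith [mul_pos ht0 hcon]
      linarith
    -- limit
    have ht1 : ∀ k : ℕ, (1 / ((k : ℝ) + 1)) ≤ 1 := by
      intro k
      rw [div_le_one (by positivity)]
      have : (0:ℝ) ≤ k := Nat.cast_nonneg k
      linarith
    have hbdd : ∀ k, x k ∈ closedBall b (d X b + 2 * ‖w‖) := by
      intro k
      rw [mem_closedBall, dist_eq_norm, norm_sub_rev]
      set t : ℝ := 1 / ((k : ℝ) + 1) with ht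
      have ht0 : 0 < t := by positivity
      have h1 : ‖t • w‖ ≤ ‖w‖ := by
        rw [norm_smul, Real.norm_of_nonneg ht0.le]
        nlinarith [norm_nonneg w, ht1 k]
      have h2 : d X (b + t • w) ≤ d X b + ‖t • w‖ := by
        have := infDist_le_infDist_add_dist (s := X) (x := b + t • w) (y := b)
        rw [dist_eq_norm, add_sub_cancel_left] at this
        exact this
      have h3 : ‖b - x k‖ ≤ ‖(b + t • w) - x k‖ + ‖t • w‖ := by
        have : b - x k = ((b + t • w) - x k) - t • w := by abel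
        rw [this]
        exact norm_sub_le _ _
      rw [hxd k] at h3
      linarith
    obtain ⟨y, _, φ, hφ, hφy⟩ := (isCompact_closedBall b (d X b + 2 * ‖w‖)).tendsto_subseq hbdd
    have hyX : y ∈ X := hX.mem_of_tendsto hφy (Eventually.of_forall (fun k => hxX (φ k)))
    have htlim : Tendsto (fun k : ℕ => (1 / ((k : ℝ) + 1))) atTop (𝓝 0) :=
      tendsto_one_div_add_atTop_nhds_zero_nat
    have htlim' : Tendsto (fun k : ℕ => (1 / ((φ k : ℝ) + 1))) atTop (𝓝 0) :=
      htlim.comp hφ.tendsto_atTop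
    have hbt : Tendsto (fun k : ℕ => b + (1 / ((φ k : ℝ) + 1)) • w) atTop (𝓝 b) := by
      have := (htlim'.smul_const w).const_add b
      simpa using this
    have hyd : ‖b - y‖ = d X b := by
      have h1 : Tendsto (fun k : ℕ => ‖(b + (1 / ((φ k : ℝ) + 1)) • w) - x (φ k)‖) atTop
          (𝓝 ‖b - y‖) := (hbt.sub hφy).norm
      have h2 : Tendsto (fun k : ℕ => d X (b + (1 / ((φ k : ℝ) + 1)) • w)) atTop (𝓝 (d X b)) :=
        (hcont.tendsto b).comp hbt
      refine tendsto_nhds_unique h1 (h2.congr (fun k => ?_))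
      exact (hxd (φ k)).symm
    have hyin : 0 ≤ inner ℝ w (y - q) := by
      have h1 : Tendsto (fun k : ℕ => (inner ℝ w (x (φ k) - q) : ℝ)) atTop
          (𝓝 (inner ℝ w (y - q))) := tendsto_const_nhds.inner (hφy.sub_const q)
      have h2 : Tendsto (fun k : ℕ => -(ε * (1 / ((φ k : ℝ) + 1)) * ‖w‖ ^ 2 / 2)) atTop
          (𝓝 (-(ε * 0 * ‖w‖ ^ 2 / 2))) :=
        ((((htlim'.const_mul ε).mul_const (‖w‖ ^ 2)).div_const 2)).neg
      have h3 := le_of_tendsto_of_tendsto' h2 h1 (fun k => hineq (φ k))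
      simpa using h3
    have hyc : ‖y - c‖ ≤ lam := by
      have := hc ⟨hyX, hyd⟩
      rwa [mem_closedBall, dist_eq_norm] at this
    have hyq : ‖y - q‖ ≤ lam := by
      have h1 : ‖y - c‖ ^ 2 = ‖y - q‖ ^ 2 + 2 * inner ℝ (y - q) w + ‖w‖ ^ 2 := by
        have : y - c = (y - q) + w := by rw [hw]; abel
        rw [this, norm_add_sq_real]
      rw [real_inner_comm] at h1
      have h2 : ‖y - q‖ ^ 2 ≤ lam ^ 2 := by
        have h3 : ‖y - c‖ ^ 2 ≤ lam ^ 2 := pow_le_pow_left₀ (norm_nonneg _) hyc 2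
        nlinarith [sq_nonneg ‖w‖]
      exact (pow_le_pow_iff_left₀ (norm_nonneg _) hlam two_ne_zero).mp h2
    have hfin : d X p ≤ ‖p - y‖ := d_le p y hyX
    have : ‖p - y‖ ≤ ‖p - q‖ + ‖y - q‖ := by
      rw [norm_sub_rev y q]
      have : p - y = (p - q) + (q - y) := by abel
      rw [this]
      exact norm_add_le _ _
    linarith
  have hpX : p ∉ X := by
    intro h
    have := d_le p p h
    rw [sub_self, norm_zero] at this
    linarith
  refine ⟨hpX, ?_⟩
  rw [mem_iUnion₂]
  refine ⟨b, ⟨?_, hnot⟩, ?_⟩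
  · by_contra hcon
    rw [medialAxis, mem_setOf_eq, not_nontrivial_iff] at hcon
    obtain ⟨x, hx, hxd⟩ := exists_near hX hne b
    apply hnot
    refine ⟨x, ?_⟩
    intro y hy
    rw [hcon hy ⟨hx, hxd⟩]
    exact mem_closedBall_self hlam
  · rw [mem_ball, dist_comm, dist_eq_norm]
    have h1 : ‖b - p‖ ^ 2 < d X b ^ 2 := by
      have : 0 ≤ ε * ‖b - p‖ ^ 2 := by positivity
      nlinarith [sq_pos_of_pos hdp]
    exact lt_of_pow_lt_pow_left₀ 2 (d_nonneg X b) h1

end Pool.Agent.Results.MP_15b8d6_gt.HullReconstructible
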